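import Pool.Agent.Helper28.T3E.StE

/-!
# Project T3E, module QUA: functions of degree at most 2 are quadratic polynomials
-/

set_option autoImplicit false

namespace Pool.Agent.Helper42.T3E

open Pool.Agent.Helper28.T3E
open Pool.Agent.Helper14.CV (Homog EqC act Tl)
open Pool.Agent.Helper14.W3 Pool.Agent.Helper78.W3

private theorem three0 : (3 : ZMod 3) = 0 := by decide

private theorem ch2 (n : ℕ) : ((n.choose 2 : ℕ) : ZMod 3) = 2 * (n : ZMod 3) ^ 2 - 2 * (n : ZMod 3) := by
  induction n with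
  | zero => simp
  | succ n ih =>
    rw [Nat.choose_succ_succ' n 1, Nat.choose_one_right, Nat.cast_add, ih]
    push_cast
    linear_combination (-(n : ZMod 3)) * three0

private theorem valcast (r : ℕ) (hr : 1 ≤ r) (m : ℤ) :
    ((((m : ZMod (3 ^ r))).val : ℕ) : ZMod 3) = (m : ZMod 3) := by
  haveI : NeZero (3 ^ r) := ⟨by positivity⟩
  rw [ZMod.natCast_val]
  exact ZMod.cast_intCast (dvd_pow_self 3 (by omega)) m

theorem hQUA : StQUA := by
  intro hBb r s F hr hs hF
  obtain ⟨-, -, -, -, -, hN⟩ := hBb r s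
  have h3r : 3 ≤ 3 ^ r := by
    calc 3 = 3 ^ 1 := by norm_num
      _ ≤ 3 ^ r := Nat.pow_le_pow_right (by norm_num) hr
  have h3s : 3 ≤ 3 ^ s := by
    calc 3 = 3 ^ 1 := by norm_num
      _ ≤ 3 ^ s := Nat.pow_le_pow_right (by norm_num) hs
  obtain ⟨c, hc⟩ : ∃ c : ℕ → ℕ → ZMod 3, c = fun i j =>
    ((dX ^ i * dY ^ j : Module.End (ZMod 3) (Fn3 (3 ^ r) (3 ^ s))) F) 0 0 := ⟨_, rfl⟩
  have hz : ∀ i j : ℕ, 2 < i + j → c i j = 0 := by
    intro i j hij
    rw [hc]
    have h := hF i j (by exact_mod_cast hij)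
    show ((dX ^ i * dY ^ j : Module.End (ZMod 3) (Fn3 (3 ^ r) (3 ^ s))) F) 0 0 = 0
    rw [h]
    rfl
  have hq : ((Qo : Module.End (ZMod 3) (Fn3 (3 ^ r) (3 ^ s))) F) 0 0 = c 1 1 := by
    rw [hc]
    simp only [pow_one]
    rfl
  have hexp : ∀ (x : ZMod (3 ^ r)) (y : ZMod (3 ^ s)), F x y =
      ∑ i ∈ Finset.range (3 ^ r), ∑ j ∈ Finset.range (3 ^ s),
        c i j * ((x.val.choose i * y.val.choose j : ℕ) : ZMod 3) := by
    intro x y
    have h := congrFun (congrFun (hN F) x) y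
    rw [Finset.sum_apply, Finset.sum_apply] at h
    refine h.trans (Finset.sum_congr rfl fun i _ => ?_)
    rw [Finset.sum_apply, Finset.sum_apply]
    refine Finset.sum_congr rfl fun j _ => ?_
    rw [hc]
    rfl
  have hexp2 : ∀ (x : ZMod (3 ^ r)) (y : ZMod (3 ^ s)), F x y =
      ∑ i ∈ Finset.range 3, ∑ j ∈ Finset.range 3,
        c i j * ((x.val.choose i * y.val.choose j : ℕ) : ZMod 3) := by
    intro x y
    rw [hexp x y]
    symm
    rw [Finset.sum_subset (Finset.range_subset_range.2 h3r)]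
    · refine Finset.sum_congr rfl fun i _ => ?_
      refine Finset.sum_subset (Finset.range_subset_range.2 h3s) fun j _ hj => ?_
      rw [Finset.mem_range, not_lt] at hj
      rw [hz i j (by omega), zero_mul]
    · intro i _ hi
      rw [Finset.mem_range, not_lt] at hi
      refine Finset.sum_eq_zero fun j _ => ?_
      rw [hz i j (by omega), zero_mul]
  refine ⟨c 0 0, c 1 0 + c 2 0, c 0 1 + c 0 2, 2 * c 2 0, 2 * c 0 2, ?_⟩
  intro m n
  rw [hexp2, hq]
  simp only [Finset.sum_range_succ, Finset.sum_range_zero, zero_add, Nat.choose_zero_right,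
    Nat.choose_one_right, Nat.cast_mul, Nat.cast_one, one_mul, mul_one, ch2, valcast r hr m,
    valcast s hs n, hz 1 2 (by norm_num), hz 2 1 (by norm_num), hz 2 2 (by norm_num), zero_mul,
    add_zero]
  linear_combination (-(c 2 0) * (m : ZMod 3) - (c 0 2) * (n : ZMod 3)) * three0

end Pool.Agent.Helper42.T3E
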